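import Pool.Agent.H26.ES.Targets

/-!
# Row TPU: transport along unshared cells
-/

set_option autoImplicit false

open Finset MeasureTheory

namespace Pool.Agent.H61.EST

open Pool.Agent.H24.CL Pool.Agent.H24.LV Pool.Agent.H26.ES

theorem tpu_phi (k q b : ℕ) : Measurable (phi q b : X k → X k) := by
  have h : Continuous (phi q b : X k → X k) := by
    refine continuous_pi fun i => ?_
    show Continuous fun a : X k => ∑ j : Fin k,
      (Nat.choose (j.val + 1) (i.val + 1) * b ^ (j.val - i.val) * q ^ (i.val + 1)) • a j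
    exact continuous_finsetSum _ fun j _ => (continuous_apply j).nsmul _
  exact h.measurable

open Classical in
/-- integration along the fibres -/
theorem tpu_fib (hSC : L_SC) (hCO : L_CO) {k q : ℕ} (hq : 1 ≤ q) (b : ℕ) (A W : Set (X k))
    (hA : MeasurableSet A) (hW : MeasurableSet W) (ν : ℝ)
    (hν : ∀ a : X k, (((Kr k q b).filter fun κ => a + κ ∈ A).card : ℝ) ≤ ν) :
    (q : ℝ) ^ (KN k) * ∫ a, (A ∩ phi q b ⁻¹' W).indicator (fun _ => (1 : ℝ)) a ≤
      ν * volume.real W := by
  obtain ⟨s, hs, hsw, hint⟩ := hSC k q b hq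
  have hm : MeasurableSet (A ∩ phi q b ⁻¹' W) := hA.inter (tpu_phi k q b hW)
  have hFm : Measurable ((A ∩ phi q b ⁻¹' W).indicator (fun _ => (1 : ℝ))) :=
    measurable_const.indicator hm
  have hF0 : ∀ a, 0 ≤ (A ∩ phi q b ⁻¹' W).indicator (fun _ => (1 : ℝ)) a := by
    intro a
    exact Set.indicator_nonneg (fun _ _ => zero_le_one) a
  have hF1 : ∀ a, (A ∩ phi q b ⁻¹' W).indicator (fun _ => (1 : ℝ)) a ≤ 1 := by
    intro a
    by_cases h : a ∈ A ∩ phi q b ⁻¹' W
    · rw [Set.indicator_of_mem h]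
    · rw [Set.indicator_of_notMem h]; exact zero_le_one
  rw [hint _ 1 hFm (fun a => by rw [abs_of_nonneg (hF0 a)]; exact hF1 a)]
  have hpt : ∀ w, ∑ κ ∈ Kr k q b, (A ∩ phi q b ⁻¹' W).indicator (fun _ => (1 : ℝ)) (s w + κ) ≤
      W.indicator (fun _ => ν) w := by
    intro w
    have h1 : ∀ κ ∈ Kr k q b, phi q b (s w + κ) = w := by
      intro κ hκ
      rw [map_add, hsw, ((hCO.2.2.2.1 k q b hq).2 κ).1 hκ, add_zero]
    by_cases hw : w ∈ W
    · rw [Set.indicator_of_mem hw]
      refine le_trans (le_of_eq ?_) (hν (s w))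
      rw [Finset.card_filter]
      push_cast
      refine Finset.sum_congr rfl fun κ hκ => ?_
      by_cases h : s w + κ ∈ A
      · rw [if_pos h, Set.indicator_of_mem]
        refine ⟨h, ?_⟩
        show phi q b (s w + κ) ∈ W
        rw [h1 κ hκ]
        exact hw
      · rw [if_neg h, Set.indicator_of_notMem]
        intro h2
        exact h h2.1
    · rw [Set.indicator_of_notMem hw]
      refine le_of_eq (Finset.sum_eq_zero fun κ hκ => ?_)
      rw [Set.indicator_of_notMem]
      intro h2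
      have h3 : phi q b (s w + κ) ∈ W := h2.2
      rw [h1 κ hκ] at h3
      exact hw h3
  have hmeas : Measurable fun w => ∑ κ ∈ Kr k q b,
      (A ∩ phi q b ⁻¹' W).indicator (fun _ => (1 : ℝ)) (s w + κ) := by
    apply Finset.measurable_sum
    intro κ _
    exact hFm.comp (hs.add_const κ)
  have hint1 : Integrable fun w => ∑ κ ∈ Kr k q b,
      (A ∩ phi q b ⁻¹' W).indicator (fun _ => (1 : ℝ)) (s w + κ) := by
    apply Integrable.of_bound hmeas.aestronglyMeasurable ((Kr k q b).card : ℝ)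
    refine Filter.Eventually.of_forall fun w => ?_
    rw [Real.norm_of_nonneg (Finset.sum_nonneg fun κ _ => hF0 _)]
    refine (Finset.sum_le_sum fun κ _ => hF1 _).trans (le_of_eq ?_)
    rw [Finset.sum_const, nsmul_eq_mul, mul_one]
  refine (integral_mono hint1 ((integrable_const ν).indicator hW) hpt).trans (le_of_eq ?_)
  rw [integral_indicator_const _ hW, smul_eq_mul, mul_comm]

/-- the points which meet `A` modulo `H k q 1` -/
def Gs (k q : ℕ) (A : Set (X k)) : Set (X k) := {a | ∃ h ∈ H k q 1, a + h ∈ A}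

theorem tpu_fin (hCO : L_CO) {k q : ℕ} (hq : 1 ≤ q) : (H k q 1 : Set (X k)).Finite := by
  refine (Kr k q 0).finite_toSet.subset fun a ha => ?_
  exact ((hCO.2.2.2.1 k q 0 hq).2 a).2 (hCO.2.1 k q 0 a ha)

theorem tpu_Gs (hCO : L_CO) {k q : ℕ} (hq : 1 ≤ q) (A : Set (X k)) (hA : MeasurableSet A) :
    MeasurableSet (Gs k q A) := by
  have h1 : Gs k q A = ⋃ h ∈ (H k q 1 : Set (X k)), (fun a => a + h) ⁻¹' A := by
    ext a
    simp [Gs]
  rw [h1]
  exact MeasurableSet.biUnion (tpu_fin hCO hq).countable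
    fun h _ => (measurable_id.add_const h) hA

theorem tpu_Uns (k q : ℕ) (G : Set (X k)) (hG : MeasurableSet G) (b : ℕ) :
    MeasurableSet (Uns k q G b) := by
  classical
  have h1 : Uns k q G b = G ∩ ⋂ κ ∈ Kr k q b, {a : X k | a + κ ∈ G → κ ∈ H k q 1} := by
    ext a
    simp [Uns]
  rw [h1]
  refine hG.inter (Finset.measurableSet_biInter _ fun κ _ => ?_)
  by_cases h : κ ∈ H k q 1
  · have : {a : X k | a + κ ∈ G → κ ∈ H k q 1} = Set.univ := by
      ext a; simp [h]
    rw [this]
    exact MeasurableSet.univ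
  · have : {a : X k | a + κ ∈ G → κ ∈ H k q 1} = ((fun a => a + κ) ⁻¹' G)ᶜ := by
      ext a; simp [h]
    rw [this]
    exact ((measurable_id.add_const κ) hG).compl

theorem tpu_H {k q : ℕ} (hk : 1 ≤ k) : H k q 1 ≤ H k q k := by
  intro a ha
  have h1 : (q ^ 1) • a = 0 := ha
  show (q ^ k) • a = 0
  have h2 : q ^ k = q ^ (k - 1) * q ^ 1 := by
    rw [← pow_add]
    congr 1
    omega
  rw [h2, mul_smul, h1, smul_zero]

theorem tpu_CntM {k q : ℕ} (hk : 1 ≤ k) (A : Set (X k)) (m : ℝ) (h : Cnt (H k q k) A m) :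
    CntM (H k q k) (H k q 1) (Gs k q A) m := by
  classical
  intro Y hY hd hinj
  have hch : ∀ y : X k, ∃ h : X k, y ∈ Y → h ∈ H k q 1 ∧ y + h ∈ A := by
    intro y
    by_cases hy : y ∈ Y
    · obtain ⟨h, h1, h2⟩ := hY y hy
      exact ⟨h, fun _ => ⟨h1, h2⟩⟩
    · exact ⟨0, fun h => absurd h hy⟩
  choose g hg using hch
  have hc : (Y.image fun y => y + g y).card = Y.card := by
    apply Finset.card_image_of_injOn
    intro y hy y' hy' heq
    have heq' : y + g y = y' + g y' := heq
    apply hinj y hy y' hy'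
    have h1 : y - y' = g y' - g y := by
      rw [sub_eq_sub_iff_add_eq_add, heq', add_comm]
    rw [h1]
    exact AddSubgroup.sub_mem _ (hg y' hy').1 (hg y hy).1
  rw [← hc]
  apply h
  · intro z hz
    obtain ⟨y, hy, rfl⟩ := Finset.mem_image.1 hz
    exact (hg y hy).2
  · intro z hz z' hz'
    obtain ⟨y, hy, rfl⟩ := Finset.mem_image.1 hz
    obtain ⟨y', hy', rfl⟩ := Finset.mem_image.1 hz'
    have h1 : y + g y - (y' + g y') = (y - y') + (g y - g y') := by abel
    rw [h1]
    exact AddSubgroup.add_mem _ (hd y hy y' hy')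
      (tpu_H hk (AddSubgroup.sub_mem _ (hg y hy).1 (hg y' hy').1))

theorem pf_TPU (hSHP : T_SHP) (hSC : L_SC) (hCO : L_CO) : T_TPU := by
  classical
  intro k q A W ν m θ hk hq hkq hA hW hν hm hθ hcm hcν hdA hmq
  have hq1 : 1 ≤ q := hq.one_lt.le
  have hq0 : (0 : ℝ) < q := by exact_mod_cast hq1
  have hGm := tpu_Gs hCO hq1 A hA
  have hAG : ∀ a ∈ A, a ∈ Gs k q A := fun a ha =>
    ⟨0, AddSubgroup.zero_mem _, by rw [add_zero]; exact ha⟩
  have hsh := hSHP.2 k q (Gs k q A) m hk hq hkq hm (tpu_CntM hk A m hcm)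
  -- the fibres
  have hfib : ∀ b, (q : ℝ) ^ (KN k) * ∫ a,
      ((A ∩ Uns k q (Gs k q A) b) ∩ phi q b ⁻¹' W).indicator (fun _ => (1 : ℝ)) a ≤
      ν * volume.real W := by
    intro b
    refine tpu_fib hSC hCO hq1 b _ W (hA.inter (tpu_Uns k q _ hGm b)) hW ν fun a => ?_
    have h4 := hcν (((Kr k q b).filter fun κ => a + κ ∈ A ∩ Uns k q (Gs k q A) b).image
      fun κ => a + κ) ?_ ?_
    · rw [Finset.card_image_of_injective _ (add_right_injective a)] at h4
      convert h4
    · intro y hy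
      obtain ⟨κ, hκ, rfl⟩ := Finset.mem_image.1 hy
      exact (Finset.mem_filter.1 hκ).2.1
    · intro y hy y' hy'
      obtain ⟨κ, hκ, rfl⟩ := Finset.mem_image.1 hy
      obtain ⟨κ', hκ', rfl⟩ := Finset.mem_image.1 hy'
      obtain ⟨hκ1, hκ2⟩ := Finset.mem_filter.1 hκ
      obtain ⟨hκ'1, hκ'2⟩ := Finset.mem_filter.1 hκ'
      rw [add_sub_add_left_eq_sub]
      have h5 : κ - κ' ∈ Kr k q b := by
        rw [(hCO.2.2.2.1 k q b hq1).2, map_sub, ((hCO.2.2.2.1 k q b hq1).2 κ).1 hκ1,
          ((hCO.2.2.2.1 k q b hq1).2 κ').1 hκ'1, sub_zero]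
      refine hκ'2.2.2 (κ - κ') h5 ?_
      have h6 : a + κ' + (κ - κ') = a + κ := by abel
      rw [h6]
      exact hAG _ hκ2.1
  -- pointwise
  have hpt : ∀ a, A.indicator (fun _ => θ / 2 * q) a ≤ ∑ b ∈ range q,
      ((A ∩ Uns k q (Gs k q A) b) ∩ phi q b ⁻¹' W).indicator (fun _ => (1 : ℝ)) a := by
    intro a
    by_cases ha : a ∈ A
    · rw [Set.indicator_of_mem ha]
      have h1 : ∑ b ∈ range q, ((A ∩ Uns k q (Gs k q A) b) ∩ phi q b ⁻¹' W).indicator
          (fun _ => (1 : ℝ)) a = (((range q).filter fun b => a ∈ Uns k q (Gs k q A) b ∧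
            phi q b a ∈ W).card : ℝ) := by
        rw [Finset.card_filter]
        push_cast
        refine Finset.sum_congr rfl fun b _ => ?_
        by_cases h : a ∈ Uns k q (Gs k q A) b ∧ phi q b a ∈ W
        · rw [if_pos h, Set.indicator_of_mem]
          exact ⟨⟨ha, h.1⟩, h.2⟩
        · rw [if_neg h, Set.indicator_of_notMem]
          intro h2
          exact h ⟨h2.1.2, h2.2⟩
      rw [h1]
      have h2 := hsh a (hAG a ha) ((range q).filter fun b => a ∉ Uns k q (Gs k q A) b)
        (Finset.filter_subset _ _) (fun b hb => (Finset.mem_filter.1 hb).2)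
      have h3 : θ * q ≤ ((pos q W a).card : ℝ) := by
        have h4 := hdA a ha
        unfold hd at h4
        rwa [le_div_iff₀ hq0] at h4
      have h5 : (pos q W a).card ≤ ((range q).filter fun b => a ∈ Uns k q (Gs k q A) b ∧
            phi q b a ∈ W).card + ((range q).filter fun b => a ∉ Uns k q (Gs k q A) b).card := by
        refine (Finset.card_le_card ?_).trans (Finset.card_union_le _ _)
        intro b hb
        unfold pos at hb
        obtain ⟨hb1, hb2⟩ := Finset.mem_filter.1 hb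
        rw [Finset.mem_union, Finset.mem_filter, Finset.mem_filter]
        by_cases h6 : a ∈ Uns k q (Gs k q A) b
        · exact Or.inl ⟨hb1, h6, hb2⟩
        · exact Or.inr ⟨hb1, h6⟩
      have h6 : ((pos q W a).card : ℝ) ≤ (((range q).filter fun b => a ∈ Uns k q (Gs k q A) b ∧
            phi q b a ∈ W).card : ℝ) +
            (((range q).filter fun b => a ∉ Uns k q (Gs k q A) b).card : ℝ) := by
        exact_mod_cast h5
      linarith
    · rw [Set.indicator_of_notMem ha]
      exact Finset.sum_nonneg fun b _ => Set.indicator_nonneg (fun _ _ => zero_le_one) a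
  have hmb : ∀ b, MeasurableSet ((A ∩ Uns k q (Gs k q A) b) ∩ phi q b ⁻¹' W) := fun b =>
    (hA.inter (tpu_Uns k q _ hGm b)).inter (tpu_phi k q b hW)
  have hib : ∀ b, Integrable (((A ∩ Uns k q (Gs k q A) b) ∩ phi q b ⁻¹' W).indicator
      (fun _ => (1 : ℝ))) := fun b => (integrable_const _).indicator (hmb b)
  have h1 := integral_mono ((integrable_const (θ / 2 * q)).indicator hA)
    (integrable_finsetSum (range q) fun b _ => hib b) hpt
  rw [integral_indicator_const _ hA, smul_eq_mul, integral_finsetSum _ fun b _ => hib b] at h1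
  have h3 : (q : ℝ) ^ (KN k) * (volume.real A * (θ / 2 * q)) ≤
      ∑ b ∈ range q, ν * volume.real W := by
    refine (mul_le_mul_of_nonneg_left h1 (by positivity)).trans ?_
    rw [Finset.mul_sum]
    exact Finset.sum_le_sum fun b _ => hfib b
  rw [Finset.sum_const, Finset.card_range, nsmul_eq_mul] at h3
  have h4 : (q : ℝ) ^ (KN k) * volume.real A * θ ≤ 2 * (ν * volume.real W) := by
    apply le_of_mul_le_mul_left _ hq0
    calc (q : ℝ) * ((q : ℝ) ^ (KN k) * volume.real A * θ)
        = 2 * ((q : ℝ) ^ (KN k) * (volume.real A * (θ / 2 * q))) := by ring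
      _ ≤ 2 * (q * (ν * volume.real W)) := by linarith
      _ = _ := by ring
  rw [← le_div_iff₀ hθ] at h4
  refine h4.trans (le_of_eq ?_)
  ring

end Pool.Agent.H61.EST
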